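import Pool.Agent.Helper34.CP.K1

/-! ABEL: abelian elements. -/

open scoped ComplexOrder

namespace Pool.Agent.Helper34.CP

open Pool.Agent.Helper39.Uct

section

variable {B : Type} [NonUnitalCStarAlgebra B]

/-- Abelian elements modulo an ideal `N` of `V`. -/
theorem abel_mod {V N : Submodule ℂ B} (hTI : TI V) (hNc : IsClosed (N : Set B))
    (hid : ∀ x ∈ N, ∀ b ∈ V, b * x ∈ N ∧ x * b ∈ N) (hst : ∀ x ∈ N, star x ∈ N)
    {h : B} (hh : h ∈ V) (hhN : h ∉ N) : ∃ a ∈ V, star a = a ∧ a ∉ N ∧ a * a ∉ N ∧ ∀ x ∈ V, ∀ y ∈ V,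
      (a * x * a) * (a * y * a) - (a * y * a) * (a * x * a) ∈ N := by
  obtain ⟨A, _, hA, ι, hι⟩ := hTI
  have hcont : Continuous ι := AddMonoidHomClass.continuous_of_bound ι 1 (fun a => by
    rw [one_mul]; exact NonUnitalStarAlgHom.norm_apply_le ι a)
  have hmem : ∀ x ∈ V, ∃ a : A, ι a = x := by
    intro x hx
    have : x ∈ Set.range ι := by rw [hι]; exact hx
    exact this
  have hrV : ∀ a, ι a ∈ V := by
    intro a
    have : ι a ∈ Set.range ι := ⟨a, rfl⟩
    rw [hι] at this
    exact this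
  let I : Submodule ℂ A := N.comap (ι : A →ₗ[ℂ] B)
  have hIm : ∀ a, a ∈ I ↔ ι a ∈ N := fun a => Iff.rfl
  have hIc : IsClosed (I : Set A) := hNc.preimage hcont
  obtain ⟨A', _, π, hπ, hker⟩ := t_QT A I hIc (by
    intro x hx b
    rw [hIm, hIm, map_mul, map_mul]
    exact hid _ hx _ (hrV b)) (by
    intro x hx
    rw [hIm, map_star]
    exact hst _ hx)
  obtain ⟨p, hp⟩ := hmem h hh
  have hnt : Nontrivial A' := by
    refine ⟨⟨π p, 0, ?_⟩⟩
    rw [Ne, hker, hIm, hp]
    exact hhN
  obtain ⟨a', hsa, h0, hab⟩ := hA A' π hπ hnt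
  obtain ⟨a1, rfl⟩ := hπ a'
  let a0 : A := (1 / 2 : ℂ) • (a1 + star a1)
  have ha0 : π a0 = π a1 := by
    change π ((1 / 2 : ℂ) • (a1 + star a1)) = π a1
    rw [map_smul, map_add, map_star, hsa.star_eq, ← two_smul ℂ (π a1), smul_smul]
    norm_num
  have ha0s : star a0 = a0 := by
    change star ((1 / 2 : ℂ) • (a1 + star a1)) = (1 / 2 : ℂ) • (a1 + star a1)
    rw [star_smul, star_add, star_star, add_comm (star a1) a1]
    congr 1
    simp
  refine ⟨ι a0, hrV _, ?_, ?_, ?_, ?_⟩
  · rw [← map_star, ha0s]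
  · rw [← hIm, ← hker, ha0]
    exact h0
  · rw [← map_mul, ← hIm, ← hker, map_mul, ha0]
    intro h1
    have h2 : star (π a1) * π a1 = 0 := by rw [hsa.star_eq, h1]
    exact h0 (CStarRing.star_mul_self_eq_zero_iff _ |>.1 h2)
  · intro x hx y hy
    obtain ⟨x', rfl⟩ := hmem x hx
    obtain ⟨y', rfl⟩ := hmem y hy
    have := hab (π x') (π y')
    rw [← ha0] at this
    have h2 : π ((a0 * x' * a0) * (a0 * y' * a0) - (a0 * y' * a0) * (a0 * x' * a0)) = 0 := by
      rw [map_sub, sub_eq_zero]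
      simpa only [map_mul] using this
    rw [hker, hIm] at h2
    simpa only [map_sub, map_mul] using h2

/-- The computation: with `p, q, r` commuting modulo `N`. -/
theorem mod_swap {V N : Submodule ℂ B} (hid : ∀ x ∈ N, ∀ b ∈ V, b * x ∈ N ∧ x * b ∈ N)
    (p q r : B) (hp : p ∈ V) (hq : q ∈ V) (hr : r ∈ V)
    (h1 : p * r - r * p ∈ N) (h2 : p * q - q * p ∈ N)
    (h3 : r * q - q * r ∈ N) : p * r * q - q * r * p ∈ N := by
  have e : p * r * q - q * r * p = (p * r - r * p) * q + r * (p * q - q * p)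
      + (r * q - q * r) * p := by noncomm_ring
  rw [e]
  exact N.add_mem (N.add_mem (hid _ h1 q hq).2 (hid _ h2 r hr).1) (hid _ h3 p hp).2

end

theorem abel : S_ABEL := by
  intro B _ V hVc hVm hVs hTI h hh h0
  let N : Submodule ℂ B :=
    { carrier := {a | a ∈ V ∧ ∀ x ∈ V, h * x * a = 0 ∧ a * x * star h = 0}
      add_mem' := by
        rintro a b ⟨ha, ha'⟩ ⟨hb, hb'⟩
        refine ⟨V.add_mem ha hb, fun x hx => ⟨?_, ?_⟩⟩
        · rw [mul_add, (ha' x hx).1, (hb' x hx).1, add_zero]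
        · rw [add_mul, add_mul, (ha' x hx).2, (hb' x hx).2, add_zero]
      zero_mem' := ⟨V.zero_mem, fun x _ => ⟨mul_zero _, by rw [zero_mul, zero_mul]⟩⟩
      smul_mem' := by
        rintro c a ⟨ha, ha'⟩
        refine ⟨V.smul_mem c ha, fun x hx => ⟨?_, ?_⟩⟩
        · rw [mul_smul_comm, (ha' x hx).1, smul_zero]
        · rw [smul_mul_assoc, smul_mul_assoc, (ha' x hx).2, smul_zero] }
  have hN : ∀ a, a ∈ N ↔ a ∈ V ∧ ∀ x ∈ V, h * x * a = 0 ∧ a * x * star h = 0 := fun a => Iff.rfl
  have hNc : IsClosed (N : Set B) := by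
    have : (N : Set B) = (V : Set B) ∩ ⋂ (x : B) (_ : x ∈ V),
        ({a | h * x * a = 0} ∩ {a | a * x * star h = 0}) := by
      ext a
      simp only [SetLike.mem_coe, hN, Set.mem_inter_iff, Set.mem_iInter, Set.mem_ofPred_eq]
    rw [this]
    refine hVc.inter (isClosed_iInter fun x => isClosed_iInter fun _ => IsClosed.inter ?_ ?_)
    · exact isClosed_eq (by fun_prop) continuous_const
    · exact isClosed_eq (by fun_prop) continuous_const
  have hid : ∀ x ∈ N, ∀ b ∈ V, b * x ∈ N ∧ x * b ∈ N := by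
    intro a ha b hb
    rw [hN] at ha
    rw [hN, hN]
    refine ⟨⟨hVm _ hb _ ha.1, fun x hx => ⟨?_, ?_⟩⟩, ⟨hVm _ ha.1 _ hb, fun x hx => ⟨?_, ?_⟩⟩⟩
    · calc h * x * (b * a) = h * (x * b) * a := by noncomm_ring
        _ = 0 := (ha.2 _ (hVm _ hx _ hb)).1
    · calc b * a * x * star h = b * (a * x * star h) := by noncomm_ring
        _ = 0 := by rw [(ha.2 _ hx).2, mul_zero]
    · calc h * x * (a * b) = (h * x * a) * b := by noncomm_ring
        _ = 0 := by rw [(ha.2 _ hx).1, zero_mul]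
    · calc a * b * x * star h = a * (b * x) * star h := by noncomm_ring
        _ = 0 := (ha.2 _ (hVm _ hb _ hx)).2
  have hst : ∀ x ∈ N, star x ∈ N := by
    intro a ha
    rw [hN] at ha
    rw [hN]
    refine ⟨hVs _ ha.1, fun x hx => ⟨?_, ?_⟩⟩
    · have := congrArg star (ha.2 _ (hVs x hx)).2
      rw [star_mul, star_mul, star_star, star_star, star_zero] at this
      rw [← this]; noncomm_ring
    · have := congrArg star (ha.2 _ (hVs x hx)).1
      rw [star_mul, star_mul, star_star, star_zero] at this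
      rw [← this]; noncomm_ring
  have hhN : h ∉ N := by
    intro hhN
    have h1 := (hhN.2 _ (hVs h hh)).1
    -- h * star h * h = 0
    have h2 : star h * h = 0 := by
      have : star h * (h * star h * h) = 0 := by rw [h1, mul_zero]
      have h3 : star (star h * h) * (star h * h) = 0 := by
        rw [star_mul, star_star]
        rw [← this]; noncomm_ring
      exact CStarRing.star_mul_self_eq_zero_iff _ |>.1 h3
    exact h0 (CStarRing.star_mul_self_eq_zero_iff _ |>.1 h2)
  obtain ⟨a, haV, has, haN, _, hcomm⟩ := abel_mod hTI hNc hid hst hh hhN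
  -- a nonzero `t = h x a`
  have hex : ∃ x ∈ V, h * x * a ≠ 0 := by
    by_contra hcon
    push Not at hcon
    apply haN
    refine ⟨haV, fun x hx => ⟨hcon x hx, ?_⟩⟩
    have := congrArg star (hcon _ (hVs x hx))
    rw [star_mul, star_mul, star_star, star_zero, has] at this
    rw [← this]; noncomm_ring
  obtain ⟨x, hx, ht0⟩ := hex
  have hxs := hVs x hx
  obtain ⟨t, ht⟩ : ∃ t, t = h * x * a := ⟨_, rfl⟩
  have hts : star t = a * star x * star h := by
    rw [ht, star_mul, star_mul, has, mul_assoc]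
  have htt : h * (x * a * a * star x) * star h = t * star t := by
    rw [hts, ht]; noncomm_ring
  have htn : ∀ n ∈ N, t * n = 0 := by
    intro n hn
    rw [ht]
    calc h * x * a * n = h * (x * a) * n := by noncomm_ring
      _ = 0 := (hn.2 _ (hVm _ hx _ haV)).1
  refine ⟨x * a * a * star x, hVm _ (hVm _ (hVm _ hx _ haV) _ haV) _ hxs, ?_, ?_, ?_⟩
  · rw [htt, star_mul, star_star]
  · rw [htt]
    intro h1
    rw [← ht] at ht0
    exact ht0 (CStarRing.mul_star_self_eq_zero_iff _ |>.1 h1)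
  · rw [htt]
    intro z hz w hw
    obtain ⟨u, hu⟩ : ∃ u, u = star x * star h * z * h * x := ⟨_, rfl⟩
    obtain ⟨v, hv⟩ : ∃ v, v = star x * star h * w * h * x := ⟨_, rfl⟩
    obtain ⟨s, hs⟩ : ∃ s, s = star x * star h * h * x := ⟨_, rfl⟩
    have hhs := hVs h hh
    have huV : u ∈ V := by
      rw [hu]; exact hVm _ (hVm _ (hVm _ (hVm _ hxs _ hhs) _ hz) _ hh) _ hx
    have hvV : v ∈ V := by
      rw [hv]; exact hVm _ (hVm _ (hVm _ (hVm _ hxs _ hhs) _ hw) _ hh) _ hx
    have hsV : s ∈ V := by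
      rw [hs]; exact hVm _ (hVm _ (hVm _ hxs _ hhs) _ hh) _ hx
    have haua : ∀ y ∈ V, a * y * a ∈ V := fun y hy => hVm _ (hVm _ haV _ hy) _ haV
    have key := mod_swap hid (a * u * a) (a * v * a) (a * s * a) (haua _ huV) (haua _ hvV)
      (haua _ hsV) (hcomm u huV s hsV) (hcomm u huV v hvV) (hcomm s hsV v hvV)
    have k2 := htn _ key
    have k3 : t * (a * u * a * (a * s * a) * (a * v * a)) * star t
        = t * (a * v * a * (a * s * a) * (a * u * a)) * star t := by
      rw [mul_sub, sub_eq_zero] at k2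
      rw [k2]
    have e1 : t * star t * z * (t * star t) * (t * star t * w * (t * star t))
        = t * (a * u * a * (a * s * a) * (a * v * a)) * star t := by
      rw [hu, hv, hs, hts, ht]; noncomm_ring
    have e2 : t * star t * w * (t * star t) * (t * star t * z * (t * star t))
        = t * (a * v * a * (a * s * a) * (a * u * a)) * star t := by
      rw [hu, hv, hs, hts, ht]; noncomm_ring
    rw [e1, e2, k3]

end Pool.Agent.Helper34.CP
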