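import Pool.Agent.Helper34.CP.Goals

/-! K1: the commutation lemma. -/

open scoped ComplexOrder

namespace Pool.Agent.Helper34.CP

open Pool.Agent.Helper39.Uct

section

variable {B : Type} [NonUnitalCStarAlgebra B]

theorem N1 {P Z : B} (h : star P * P * Z = 0) : P * Z = 0 := by
  have h1 : star (P * Z) * (P * Z) = 0 := by
    rw [star_mul]
    calc star Z * star P * (P * Z) = star Z * (star P * P * Z) := by noncomm_ring
      _ = 0 := by rw [h, mul_zero]
  exact CStarRing.star_mul_self_eq_zero_iff _ |>.1 h1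

theorem N2 {P Z : B} (h : Z * P * star P = 0) : Z * P = 0 := by
  have h1 : (Z * P) * star (Z * P) = 0 := by
    rw [star_mul]
    calc Z * P * (star P * star Z) = (Z * P * star P) * star Z := by noncomm_ring
      _ = 0 := by rw [h, zero_mul]
  exact CStarRing.mul_star_self_eq_zero_iff _ |>.1 h1

end

theorem k1 : S_K1 := by
  intro B _ Y X hYc h1 h2 h3 h4 h5 a₁ ha₁ a₂ ha₂ a₃ ha₃ a₄ ha₄
  by_contra hne
  let S : Set B := {z | ∃ x ∈ Y, ∃ y ∈ Y, z = x * star y}
  let D : Submodule ℂ B := (Submodule.span ℂ S).topologicalClosure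
  have hDc : IsClosed (D : Set B) := Submodule.isClosed_topologicalClosure _
  have hgen : ∀ x ∈ Y, ∀ y ∈ Y, x * star y ∈ D := fun x hx y hy =>
    Submodule.le_topologicalClosure _ (Submodule.subset_span ⟨x, hx, y, hy, rfl⟩)
  have hDmul : ∀ x ∈ D, ∀ y ∈ D, x * y ∈ D := by
    refine Helper10.Uct.closure_mul_mem S S D hDc ?_
    rintro _ ⟨x, hx, y, hy, rfl⟩ _ ⟨z, hz, w, hw, rfl⟩
    have : x * star y * (z * star w) = (x * star y * z) * star w := by noncomm_ring
    rw [this]
    exact hgen _ (h1 x hx y hy z hz) w hw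
  have hDstar : ∀ x ∈ D, star x ∈ D := by
    refine Helper10.Uct.closure_star_mem S S ?_
    rintro _ ⟨x, hx, y, hy, rfl⟩
    exact ⟨y, hy, x, hx, by rw [star_mul, star_star]⟩
  have hDY : ∀ x ∈ D, ∀ y ∈ Y, x * y ∈ Y := by
    intro x hx y hy
    refine Helper10.Uct.closure_map_mem S Y hYc (LinearMap.mulRight ℂ y)
      (continuous_mul_const _) ?_ x hx
    rintro _ ⟨u, hu, v, hv, rfl⟩
    exact h1 u hu v hv y hy
  obtain ⟨Al, _, ι, hι, hr⟩ := Helper10.Uct.exists_alg D hDc hDmul hDstar
  have hmem : ∀ x ∈ D, ∃ a : Al, ι a = x := by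
    intro x hx
    have : x ∈ Set.range ι := by rw [hr]; exact hx
    exact this
  obtain ⟨p, hp⟩ := hmem _ (hgen a₁ ha₁ a₂ ha₂)
  obtain ⟨q, hq⟩ := hmem _ (hgen a₃ ha₃ a₄ ha₄)
  obtain ⟨z, hz0, hzz⟩ := Helper78.Uct.nl Al ⟨p, q, by
    intro he
    apply hne
    have := congrArg ι he
    rw [map_mul, map_mul, hp, hq] at this
    exact this⟩
  have hkD : ι z ∈ D := by
    have : ι z ∈ Set.range ι := ⟨z, rfl⟩
    rw [hr] at this
    exact this
  have hk0 : ι z ≠ 0 := by
    intro h
    exact hz0 (hι (by rw [h, map_zero]))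
  have hkk : ι z * ι z = 0 := by rw [← map_mul, hzz, map_zero]
  generalize ι z = k at hkD hk0 hkk
  have hex : ∃ y ∈ Y, k * y ≠ 0 := by
    by_contra hcon
    push Not at hcon
    have hkd : ∀ d ∈ D, k * d = 0 := by
      intro d hd
      have := Helper10.Uct.closure_map_mem S (⊥ : Submodule ℂ B)
        (by rw [Submodule.bot_coe]; exact isClosed_singleton) (LinearMap.mulLeft ℂ k)
        (continuous_const_mul _) (by
          rintro _ ⟨u, hu, v, hv, rfl⟩
          change k * (u * star v) ∈ (⊥ : Submodule ℂ B)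
          rw [← mul_assoc, hcon u hu, zero_mul]
          exact Submodule.zero_mem _) d hd
      exact (Submodule.mem_bot ℂ).1 this
    exact hk0 (CStarRing.mul_star_self_eq_zero_iff _ |>.1 (hkd _ (hDstar _ hkD)))
  obtain ⟨y, hy, hky⟩ := hex
  obtain ⟨y₁, hy₁⟩ : ∃ y₁, y₁ = k * y := ⟨_, rfl⟩
  obtain ⟨y₂, hy₂⟩ : ∃ y₂, y₂ = star k * y₁ := ⟨_, rfl⟩
  have hY1 : y₁ ∈ Y := by rw [hy₁]; exact hDY k hkD y hy
  have hY2 : y₂ ∈ Y := by rw [hy₂]; exact hDY _ (hDstar k hkD) _ hY1
  have h12 : star y₁ * y₂ = 0 := by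
    rw [hy₂, hy₁, star_mul]
    calc star y * star k * (star k * (k * y)) = star y * (star k * star k) * (k * y) := by
          noncomm_ring
      _ = 0 := by rw [← star_mul, hkk, star_zero, mul_zero, zero_mul]
  obtain ⟨α, hα⟩ : ∃ α, α = star X * y₁ := ⟨_, rfl⟩
  obtain ⟨β, hβ⟩ : ∃ β, β = star X * y₂ := ⟨_, rfl⟩
  have hαs : star α = star y₁ * X := by rw [hα, star_mul, star_star]
  have hβs : star β = star y₂ * X := by rw [hβ, star_mul, star_star]
  -- commutation of the four elements
  have c1 : (α * star α) * (β * star β) = (β * star β) * (α * star α) := by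
    have := h4 y₁ hY1 y₁ hY1 y₂ hY2 y₂ hY2
    rw [hαs, hβs, hα, hβ]
    simpa only [mul_assoc] using this
  have c2 : (β * star α) * (α * star α) = (α * star α) * (β * star α) := by
    have := h4 y₂ hY2 y₁ hY1 y₁ hY1 y₁ hY1
    rw [hαs, hβ, hα]
    simpa only [mul_assoc] using this
  have c3 : (β * star β) * (β * star α) = (β * star α) * (β * star β) := by
    have := h4 y₂ hY2 y₂ hY2 y₂ hY2 y₁ hY1
    rw [hαs, hβs, hβ]
    simpa only [mul_assoc] using this
  have hw1 : y₁ * star α * β * star β ∈ Y := by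
    have e1 : y₁ * star α ∈ Y := by rw [hαs]; exact h2 _ hY1 _ hY1
    have e2 : y₁ * star α * β ∈ Y := by rw [hβ]; exact h3 _ e1 _ hY2
    rw [hβs]; exact h2 _ e2 _ hY2
  have hw2 : y₂ * star β * α * star α ∈ Y := by
    have e1 : y₂ * star β ∈ Y := by rw [hβs]; exact h2 _ hY2 _ hY2
    have e2 : y₂ * star β * α ∈ Y := by rw [hα]; exact h3 _ e1 _ hY1
    rw [hαs]; exact h2 _ e2 _ hY1
  have hw0 : y₁ * star α * β * star β - y₂ * star β * α * star α = 0 := by
    by_contra hw
    apply h5 _ (Y.sub_mem hw1 hw2) hw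
    have e1 : star X * (y₁ * star α * β * star β) = (α * star α) * (β * star β) := by
      rw [hα]; noncomm_ring
    have e2 : star X * (y₂ * star β * α * star α) = (β * star β) * (α * star α) := by
      rw [hβ]; noncomm_ring
    rw [mul_sub, e1, e2, c1, sub_self]
  have hw : y₁ * star α * β * star β = y₂ * star β * α * star α := sub_eq_zero.1 hw0
  have e1 : y₁ * (star α * β * star β) = 0 := by
    apply N1
    calc star y₁ * y₁ * (star α * β * star β) = star y₁ * (y₁ * star α * β * star β) := by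
          noncomm_ring
      _ = (star y₁ * y₂) * (star β * α * star α) := by rw [hw]; noncomm_ring
      _ = 0 := by rw [h12, zero_mul]
  have e2 : (α * star α) * (β * star β) = 0 := by
    calc (α * star α) * (β * star β) = star X * (y₁ * (star α * β * star β)) := by
          rw [hα]; noncomm_ring
      _ = 0 := by rw [e1, mul_zero]
  have e3 : (β * star β) * (β * star α) * (α * star α) = 0 := by
    calc (β * star β) * (β * star α) * (α * star α)
        = (β * star α) * (β * star β) * (α * star α) := by rw [c3]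
      _ = (β * star α) * ((β * star β) * (α * star α)) := by rw [mul_assoc]
      _ = (β * star α) * ((α * star α) * (β * star β)) := by rw [c1]
      _ = 0 := by rw [e2, mul_zero]
  have e4 : star β * (β * star α * (α * star α)) = 0 := by
    apply N1
    rw [star_star]
    rw [← e3]; noncomm_ring
  have e5 : β * (star α * (α * star α)) = 0 := by
    apply N1
    rw [← e4]; noncomm_ring
  have e6 : (β * star α) * α = 0 := by
    apply N2
    rw [← e5]; noncomm_ring
  have e7 : β * star α = 0 := by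
    apply N2
    rw [star_star]; exact e6
  have e8 : y₂ * star α = 0 := by
    by_contra h
    apply h5 (y₂ * star α) (by rw [hαs]; exact h2 _ hY2 _ hY1) h
    rw [← mul_assoc, ← hβ]; exact e7
  have e9 : y₁ * star α = 0 := by
    have f1 : star (y₁ * star α) * (y₁ * star α) = 0 := by
      have f2 : star (y₁ * star α) = α * star y * star k := by
        rw [star_mul, star_star, hy₁, star_mul, mul_assoc]
      rw [f2]
      calc α * star y * star k * (y₁ * star α) = α * star y * ((star k * y₁) * star α) := by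
            noncomm_ring
        _ = 0 := by rw [← hy₂, e8, mul_zero]
    exact CStarRing.star_mul_self_eq_zero_iff _ |>.1 f1
  have e10 : α * star α = 0 := by
    rw [hα, mul_assoc, ← hα, e9, mul_zero]
  have e11 : α = 0 := CStarRing.mul_star_self_eq_zero_iff _ |>.1 e10
  exact h5 y₁ hY1 (by rw [hy₁]; exact hky) (by rw [← hα]; exact e11)

end Pool.Agent.Helper34.CP
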