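import Pool.Agent.Helper34.CP.ABEL

/-! TYI: the algebras `FF E m` are type I. -/

open scoped ComplexOrder

namespace Pool.Agent.Helper34.CP

open Pool.Agent.Helper39.Uct

theorem injective_isometry {A B : Type} [NonUnitalCStarAlgebra A] [NonUnitalCStarAlgebra B]
    (ι : A →⋆ₙₐ[ℂ] B) (h : Function.Injective ι) : Isometry ι :=
  AddMonoidHomClass.isometry_of_norm ι fun a => NonUnitalStarAlgHom.norm_map ι h a

/-- The step of the induction. -/
theorem tyi_step (hBAS : S_BAS) {B : Type} [NonUnitalCStarAlgebra B] {E : ℕ → Submodule ℂ B}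
    (hE : Sys E) (hTI : TI (E 0)) (m : ℕ) (hm : TI (FF E m)) : TI (FF E (m + 1)) := by
  have hb := hBAS B E hE
  have hVc : IsClosed (FF E (m + 1) : Set B) := Submodule.isClosed_topologicalClosure _
  obtain ⟨D, _, ι, hι, hr⟩ := Helper10.Uct.exists_alg (FF E (m + 1)) hVc (hb.ffMul _) (hb.ffStar _)
  refine ⟨D, inferInstance, ?_, ι, hr⟩
  intro D' _ π hπ hnt
  have hiso := injective_isometry ι hι
  have hmem : ∀ x ∈ FF E (m + 1), ∃ a : D, ι a = x := by
    intro x hx
    have : x ∈ Set.range ι := by rw [hr]; exact hx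
    exact this
  have hrV : ∀ a, ι a ∈ FF E (m + 1) := by
    intro a
    have : ι a ∈ Set.range ι := ⟨a, rfl⟩
    rw [hr] at this
    exact this
  have hcπ : Continuous π := Helper42.Uct.hcont π
  by_cases hcase : ∀ x ∈ E (m + 1), ∀ y ∈ E (m + 1), ∀ d : D, ι d = x * star y → π d = 0
  · -- case (a)
    obtain ⟨A, _, hA, j, hj⟩ := hm
    obtain ⟨ρ, hρ⟩ := Helper10.Uct.lift_hom j ι hι (by
      rw [hj, hr]
      exact hb.ffMono m (m + 1) (Nat.le_succ m))
    have hsurj : Function.Surjective (π.comp ρ) := by
      let R : Submodule ℂ D' := LinearMap.range ((π.comp ρ : A →⋆ₙₐ[ℂ] D') : A →ₗ[ℂ] D')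
      have hRset : (R : Set D') = Set.range (π.comp ρ) := by
        ext x; exact Iff.rfl
      have hRc : IsClosed (R : Set D') := by
        rw [hRset]; exact t_RC _ _ _
      let T : Submodule ℂ B := (R.comap (π : D →ₗ[ℂ] D')).map (ι : D →ₗ[ℂ] B)
      have hTc : IsClosed (T : Set B) := by
        have : (T : Set B) = ι '' (π ⁻¹' (R : Set D')) := by
          ext x; exact Iff.rfl
        rw [this]
        exact hiso.isClosedEmbedding.isClosedMap _ (hRc.preimage hcπ)
      have hle : FF E (m + 1) ≤ T := by
        rw [hb.ffSucc m]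
        refine Submodule.topologicalClosure_minimal _ (sup_le ?_ (Submodule.span_le.2 ?_)) hTc
        · intro z hz
          have hz' : z ∈ Set.range j := by rw [hj]; exact hz
          obtain ⟨a, rfl⟩ := hz'
          exact ⟨ρ a, ⟨a, rfl⟩, hρ a⟩
        · rintro _ ⟨x, hx, y, hy, rfl⟩
          obtain ⟨d, hd⟩ := hmem _ (hb.kk (m + 1) (m + 1) le_rfl x hx y hy)
          refine ⟨d, ?_, hd⟩
          change π d ∈ R
          rw [hcase x hx y hy d hd]
          exact R.zero_mem
      intro d'
      obtain ⟨d, rfl⟩ := hπ d'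
      obtain ⟨d2, hd2, he⟩ := hle (hrV d)
      have : d2 = d := hι he
      subst this
      exact hd2
    exact hA D' (π.comp ρ) hsurj hnt
  · -- case (b)
    push Not at hcase
    obtain ⟨x₀, hx₀, y₀, hy₀, d₀, hd₀, hne⟩ := hcase
    let K : Submodule ℂ B := (LinearMap.ker (π : D →ₗ[ℂ] D')).map (ι : D →ₗ[ℂ] B)
    have hK : ∀ d, ι d ∈ K ↔ π d = 0 := by
      intro d
      constructor
      · rintro ⟨d2, hd2, he⟩
        have : d2 = d := hι he
        subst this
        exact hd2
      · intro h
        exact ⟨d, h, rfl⟩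
    have hKV : K ≤ FF E (m + 1) := by
      rintro _ ⟨d, _, rfl⟩
      exact hrV d
    have hKc : IsClosed (K : Set B) := by
      have : (K : Set B) = ι '' {d | π d = 0} := by
        ext x; exact Iff.rfl
      rw [this]
      exact hiso.isClosedEmbedding.isClosedMap _ (isClosed_eq hcπ continuous_const)
    have hKl : ∀ z ∈ FF E (m + 1), ∀ k ∈ K, z * k ∈ K := by
      intro z hz k hk
      obtain ⟨d, rfl⟩ := hmem z hz
      obtain ⟨d2, rfl⟩ := hmem k (hKV hk)
      rw [hK] at hk
      rw [← map_mul, hK, map_mul, hk, mul_zero]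
    have hKr : ∀ z ∈ FF E (m + 1), ∀ k ∈ K, k * z ∈ K := by
      intro z hz k hk
      obtain ⟨d, rfl⟩ := hmem z hz
      obtain ⟨d2, rfl⟩ := hmem k (hKV hk)
      rw [hK] at hk
      rw [← map_mul, hK, map_mul, hk, zero_mul]
    have hKs : ∀ k ∈ K, star k ∈ K := by
      intro k hk
      obtain ⟨d2, rfl⟩ := hmem k (hKV hk)
      rw [hK] at hk
      rw [← map_star, hK, map_star, hk, star_zero]
    have hKss : ∀ z ∈ FF E (m + 1), z * star z ∈ K → z ∈ K := by
      intro z hz hzz
      obtain ⟨d, rfl⟩ := hmem z hz
      rw [← map_star, ← map_mul, hK, map_mul, map_star] at hzz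
      rw [hK]
      exact CStarRing.mul_star_self_eq_zero_iff _ |>.1 hzz
    have hkk : ∀ x ∈ E (m + 1), ∀ y ∈ E (m + 1), x * star y ∈ FF E (m + 1) :=
      fun x hx y hy => hb.kk (m + 1) (m + 1) le_rfl x hx y hy
    have hE0r : ∀ x ∈ E (m + 1), ∀ a ∈ E 0, x * a ∈ E (m + 1) := fun x hx a ha =>
      hE.mul (m + 1) 0 x hx a ha
    have hEss : ∀ x ∈ E (m + 1), ∀ y ∈ E (m + 1), star x * y ∈ E 0 := fun x hx y hy =>
      hE.left (m + 1) 0 x hx y hy
    -- the ideal `N`
    let N : Submodule ℂ B :=
      { carrier := {a | a ∈ E 0 ∧ ∀ x ∈ E (m + 1), ∀ y ∈ E (m + 1), x * a * star y ∈ K}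
        add_mem' := by
          rintro a b ⟨ha, ha'⟩ ⟨hb, hb'⟩
          refine ⟨(E 0).add_mem ha hb, fun x hx y hy => ?_⟩
          rw [mul_add, add_mul]
          exact K.add_mem (ha' x hx y hy) (hb' x hx y hy)
        zero_mem' := ⟨(E 0).zero_mem, fun x _ y _ => by
          rw [mul_zero, zero_mul]; exact K.zero_mem⟩
        smul_mem' := by
          rintro c a ⟨ha, ha'⟩
          refine ⟨(E 0).smul_mem c ha, fun x hx y hy => ?_⟩
          rw [mul_smul_comm, smul_mul_assoc]
          exact K.smul_mem c (ha' x hx y hy) }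
    have hN : ∀ a, a ∈ N ↔ a ∈ E 0 ∧ ∀ x ∈ E (m + 1), ∀ y ∈ E (m + 1), x * a * star y ∈ K :=
      fun a => Iff.rfl
    have hNc : IsClosed (N : Set B) := by
      have : (N : Set B) = (E 0 : Set B) ∩ ⋂ (x : B) (_ : x ∈ E (m + 1)) (y : B)
          (_ : y ∈ E (m + 1)), {a | x * a * star y ∈ (K : Set B)} := by
        ext a
        simp only [SetLike.mem_coe, hN, Set.mem_inter_iff, Set.mem_iInter, Set.mem_ofPred_eq]
      rw [this]
      refine (hE.closed 0).inter (isClosed_iInter fun x => isClosed_iInter fun _ =>
        isClosed_iInter fun y => isClosed_iInter fun _ => ?_)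
      exact hKc.preimage (f := fun a : B => x * a * star y) (by fun_prop)
    have hid : ∀ x ∈ N, ∀ b ∈ E 0, b * x ∈ N ∧ x * b ∈ N := by
      intro a ha b hbm
      rw [hN] at ha
      rw [hN, hN]
      refine ⟨⟨hE.mul 0 0 _ hbm _ ha.1, fun x hx y hy => ?_⟩,
        ⟨hE.mul 0 0 _ ha.1 _ hbm, fun x hx y hy => ?_⟩⟩
      · have : x * (b * a) * star y = (x * b) * a * star y := by noncomm_ring
        rw [this]
        exact ha.2 _ (hE0r x hx b hbm) y hy
      · have : x * (a * b) * star y = x * a * star (y * star b) := by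
          rw [star_mul, star_star]; noncomm_ring
        rw [this]
        exact ha.2 x hx _ (hE0r y hy _ (hE.star0 b hbm))
    have hst : ∀ x ∈ N, star x ∈ N := by
      intro a ha
      rw [hN] at ha
      rw [hN]
      refine ⟨hE.star0 a ha.1, fun x hx y hy => ?_⟩
      have := hKs _ (ha.2 y hy x hx)
      rw [star_mul, star_mul, star_star] at this
      rw [mul_assoc]; exact this
    have hy0N : star y₀ * y₀ ∉ N := by
      intro h
      have h1 := h.2 x₀ hx₀ x₀ hx₀
      have h2 : x₀ * (star y₀ * y₀) * star x₀ = (x₀ * star y₀) * star (x₀ * star y₀) := by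
        rw [star_mul, star_star]; noncomm_ring
      rw [h2] at h1
      have h3 := hKss _ (hkk x₀ hx₀ y₀ hy₀) h1
      rw [← hd₀, hK] at h3
      exact hne h3
    obtain ⟨a, haV, has, _, haaN, hcomm⟩ := abel_mod hTI hNc hid hst (hEss y₀ hy₀ y₀ hy₀) hy0N
    -- polarization
    have hex : ∃ x ∈ E (m + 1), (x * a) * star (x * a) ∉ K := by
      by_contra hcon
      push Not at hcon
      apply haaN
      refine ⟨hE.mul 0 0 _ haV _ haV, fun x hx y hy => ?_⟩
      have h1 := hcon x hx
      have h2 := hcon y hy
      have h3 := hcon (x + y) ((E (m + 1)).add_mem hx hy)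
      have h4 := hcon (x + Complex.I • y)
        ((E (m + 1)).add_mem hx ((E (m + 1)).smul_mem _ hy))
      have e3 : (x + y) * a * star ((x + y) * a) = x * a * star (x * a) + y * a * star (y * a)
          + (x * a * star (y * a) + y * a * star (x * a)) := by
        simp only [star_mul, star_add]; noncomm_ring
      have e4 : (x + Complex.I • y) * a * star ((x + Complex.I • y) * a)
          = x * a * star (x * a) + y * a * star (y * a)
          + (-Complex.I) • (x * a * star (y * a) - y * a * star (x * a)) := by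
        have hI : star Complex.I = -Complex.I := Complex.conj_I
        have g1 : (x + Complex.I • y) * a = x * a + Complex.I • (y * a) := by
          rw [add_mul, smul_mul_assoc]
        have g2 : star (x * a + Complex.I • (y * a)) = star (x * a)
            - Complex.I • star (y * a) := by
          rw [star_add, star_smul, hI, neg_smul, sub_eq_add_neg]
        rw [g1, g2]
        generalize x * a = p
        generalize y * a = q
        have g3 : (p + Complex.I • q) * (star p - Complex.I • star q)
            = p * star p + Complex.I • (q * star p) - Complex.I • (p * star q)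
              - (Complex.I * Complex.I) • (q * star q) := by
          rw [add_mul, mul_sub, mul_sub, smul_mul_assoc, smul_mul_assoc, mul_smul_comm,
            mul_smul_comm, smul_smul]
          abel
        rw [g3, Complex.I_mul_I, smul_sub]
        simp only [neg_smul, one_smul]
        abel
      have f3 : x * a * star (y * a) + y * a * star (x * a) ∈ K := by
        have := K.sub_mem h3 (K.add_mem h1 h2)
        rw [e3, add_sub_cancel_left] at this
        exact this
      have f4 : x * a * star (y * a) - y * a * star (x * a) ∈ K := by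
        have := K.sub_mem h4 (K.add_mem h1 h2)
        rw [e4, add_sub_cancel_left] at this
        have h5 := K.smul_mem Complex.I this
        rw [smul_smul, mul_neg, Complex.I_mul_I, neg_neg, one_smul] at h5
        exact h5
      have f5 := K.add_mem f3 f4
      have f6 : x * a * star (y * a) + y * a * star (x * a)
          + (x * a * star (y * a) - y * a * star (x * a)) = (2 : ℂ) • (x * a * star (y * a)) := by
        rw [two_smul]; abel
      rw [f6] at f5
      have f7 := K.smul_mem (1 / 2 : ℂ) f5
      rw [smul_smul] at f7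
      norm_num at f7
      have f8 : x * (a * a) * star y = x * a * (a * star y) := by noncomm_ring
      rw [f8]
      rw [has] at f7
      exact f7
    obtain ⟨x, hx, htK⟩ := hex
    obtain ⟨t, ht⟩ : ∃ t, t = x * a := ⟨_, rfl⟩
    rw [← ht] at htK
    have hts : star t = a * star x := by rw [ht, star_mul, has]
    have htE : t ∈ E (m + 1) := by rw [ht]; exact hE0r x hx a haV
    have htV : t * star t ∈ FF E (m + 1) := hkk t htE t htE
    obtain ⟨d, hd⟩ := hmem _ htV
    refine ⟨π d, ?_, ?_, ?_⟩
    · rw [IsSelfAdjoint, ← map_star]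
      congr 1
      apply hι
      rw [map_star, hd, star_mul, star_star]
    · intro h
      apply htK
      rw [← hd, hK]
      exact h
    · intro x' y'
      obtain ⟨dz, rfl⟩ := hπ x'
      obtain ⟨dw, rfl⟩ := hπ y'
      obtain ⟨z, hz⟩ : ∃ z, z = ι dz := ⟨_, rfl⟩
      obtain ⟨w, hw⟩ : ∃ w, w = ι dw := ⟨_, rfl⟩
      have hzV : z ∈ FF E (m + 1) := by rw [hz]; exact hrV _
      have hwV : w ∈ FF E (m + 1) := by rw [hw]; exact hrV _
      obtain ⟨u, hu⟩ : ∃ u, u = star x * z * x := ⟨_, rfl⟩
      obtain ⟨v, hv⟩ : ∃ v, v = star x * w * x := ⟨_, rfl⟩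
      obtain ⟨s, hs⟩ : ∃ s, s = star x * x := ⟨_, rfl⟩
      have huV : u ∈ E 0 := by rw [hu]; exact hb.sandF _ _ le_rfl z hzV x hx x hx
      have hvV : v ∈ E 0 := by rw [hv]; exact hb.sandF _ _ le_rfl w hwV x hx x hx
      have hsV : s ∈ E 0 := by rw [hs]; exact hEss x hx x hx
      have haua : ∀ y ∈ E 0, a * y * a ∈ E 0 := fun y hy =>
        hE.mul 0 0 _ (hE.mul 0 0 _ haV _ hy) _ haV
      have key := mod_swap hid (a * u * a) (a * v * a) (a * s * a) (haua _ huV) (haua _ hvV)
        (haua _ hsV) (hcomm u huV s hsV) (hcomm u huV v hvV) (hcomm s hsV v hvV)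
      have k2 := key.2 t htE t htE
      have k3 : (t * star t) * z * (t * star t) * ((t * star t) * w * (t * star t))
          - (t * star t) * w * (t * star t) * ((t * star t) * z * (t * star t)) ∈ K := by
        have e : (t * star t) * z * (t * star t) * ((t * star t) * w * (t * star t))
          - (t * star t) * w * (t * star t) * ((t * star t) * z * (t * star t))
          = t * (a * u * a * (a * s * a) * (a * v * a)
            - a * v * a * (a * s * a) * (a * u * a)) * star t := by
          rw [hu, hv, hs, hts, ht]; noncomm_ring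
        rw [e]; exact k2
      have k4 : ι (d * dz * d * (d * dw * d) - d * dw * d * (d * dz * d)) ∈ K := by
        have e : ι (d * dz * d * (d * dw * d) - d * dw * d * (d * dz * d))
            = (t * star t) * z * (t * star t) * ((t * star t) * w * (t * star t))
          - (t * star t) * w * (t * star t) * ((t * star t) * z * (t * star t)) := by
          simp only [map_sub, map_mul, hd, ← hz, ← hw]
        rw [e]; exact k3
      rw [hK, map_sub, sub_eq_zero] at k4
      simpa only [map_mul] using k4

theorem tyi (hBAS : S_BAS) : S_TYI := by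
  intro B _ E hE hTI m
  induction m with
  | zero =>
    rw [(hBAS B E hE).ffZero]
    exact hTI
  | succ m ih => exact tyi_step hBAS hE hTI m ih

end Pool.Agent.Helper34.CP
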