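import Pool.Agent.Helper34.CP.CP
import Pool.Agent.Helper34.CP.K1
import Pool.Agent.Helper34.CP.ABEL
import Pool.Agent.Helper34.CP.TYI
import Pool.Agent.Helper67.CP.BAS
import Pool.Agent.Helper97.CP.CUT
import Pool.Agent.Helper35.CP.FN
import Pool.Agent.Helper35.CP.TOPZ
import Pool.Agent.Helper35.CP.COMM
import Pool.Agent.Helper35.CP.DK
import Pool.Agent.Helper80.CP.RTI
import Pool.Agent.Helper42.CP.HCF
import Pool.Agent.Helper16.CP.KILL
import Pool.Agent.Helper16.CP.MK
import Pool.Agent.Helper37.CP.TOP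
import Pool.Agent.Helper94.CP.QF
import Pool.Agent.Helper51.CP.SYSQ
import Pool.Agent.Helper58.CP.MATZ

/-! The assembled theorem. -/

open scoped ComplexOrder

namespace Pool.Agent.Helper34.CP

open Pool.Agent.Helper39.Uct

theorem t_NRM' : Pool.Agent.Helper34.CP.S_NRM :=
  Helper80.CP.NRM Helper67.CP.bas Helper97.CP.cut

theorem t_COMM : S_COMM := Helper35.CP.comm Helper67.CP.bas (Helper35.CP.dk k1)

theorem t_KILL : S_KILL := Helper16.CP.kill Helper67.CP.bas Helper97.CP.cut abel Helper35.CP.fn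
  t_COMM

theorem t_MK : S_MK := Helper16.CP.mk Helper67.CP.bas t_KILL

theorem t_TOP : S_TOP := Helper37.CP.top Helper67.CP.bas t_NRM' t_MK

theorem t_CP : S_CP :=
  cp Helper67.CP.bas Helper51.CP.sysq (tyi Helper67.CP.bas) (Helper42.CP.hcf Helper67.CP.bas)
    (Helper80.CP.RTI Helper67.CP.bas abel) t_TOP (Helper94.CP.QF Helper67.CP.bas)
    (Helper35.CP.topz Helper58.CP.matz)

end Pool.Agent.Helper34.CP
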