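import Pool.Agent.Helper34.CP.Goals

/-! CP: the theorem from the packets. -/

open scoped ComplexOrder

namespace Pool.Agent.Helper34.CP

open Pool.Agent.Helper39.Uct

theorem pz_int : PZ (Multiplicative ℤ) :=
  Helper51.Uct2.t_NP (Multiplicative ℤ) inferInstance inferInstance

theorem cp (hBAS : S_BAS) (hQ : S_SYSQ) (hTYI : S_TYI) (hHCF : S_HCF) (hRTI : S_RTI)
    (hTOP : S_TOP) (hQF : S_QF) (hTOPZ : S_TOPZ) : S_CP := by
  intro 𝒞 hC B _ _ E hE hTI
  refine Helper75.Uct2.t_ZORN2 𝒞 HasSys ?_ hC.ext hC.union ?_ ?_ B ⟨E, hE, hTI⟩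
  · intro A _ hA
    refine hC.typeI A ?_
    intro A' _ π hπ hn
    exfalso
    haveI : Subsingleton A' := hπ.subsingleton
    exact not_subsingleton A' inferInstance
  · intro A A' _ _ π hπ h
    exact hQ A A' π hπ h
  · intro A _ _ hA hn
    by_cases hZ : HerZ A
    · obtain ⟨H, _, ι, hher, hnt, hW⟩ := hZ
      haveI : TopologicalSpace.SeparableSpace H := Helper69.Uct2.separable_of_inj ι hher.1
      exact Helper27.Uct2.idl 𝒞 (fun H A _ _ _ ι h f hH => (hC.hered H A ι h f).1 hH) H A ι hher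
        hnt (t_RZ 𝒞 hC (Multiplicative ℤ) pz_int H hW)
    · obtain ⟨E', hE', hTI'⟩ := hA
      have hF : ∀ m, TI (FF E' m) := hTYI A E' hE' hTI'
      have hNA : NA E' := hHCF A E' hE' hZ
      have hNR : NR E' := hRTI A E' hE' hF hNA
      obtain ⟨G, hG⟩ := (hBAS A E' hE').gr
      have hT : G.Top := hTOP A E' hE' hTI' hNA hNR G hG
      have hq : QIn 𝒞 (G.fib 1) := by
        rw [hG 1]
        exact hQF 𝒞 hC.typeI hC.union A E' hE' hF
      refine ⟨A, inferInstance, NonUnitalStarAlgHom.id ℂ A, ⟨Function.injective_id, ?_⟩, hn,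
        hTOPZ 𝒞 hC A G hT hq⟩
      intro x a
      exact ⟨⟨_, rfl⟩, ⟨_, rfl⟩⟩

end Pool.Agent.Helper34.CP
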