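import Pool.Agent.Helper39.Uct.Main2

/-!
# MP_d97caa_an: Cuntz-Pimsner systems over type I algebras (helper34)

THEOREM CP.  Let `𝒞` be a class with `RSClass 𝒞` (`Pool.Agent.Helper39.Uct.RSClass`), `B` a
separable C*-algebra generated by closed subspaces `E n` (`n : ℕ`) with `E m * E n ⊆ E (m + n)`,
`(E m)* * E (m + n) ⊆ E n`, where `E 0` is the image of a type I algebra.  Then `𝒞 B`.
It covers every quotient (by arbitrary, not only gauge invariant, ideals) of every relative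
Cuntz-Pimsner algebra of a C*-correspondence over a type I algebra.

Everywhere `A` is `E 0`.  `LL e V` is the closure of `e V`.  The two elementary facts used
all the time: (N1) `P* P Z = 0` implies `P Z = 0` (because `(P Z)* (P Z) = Z* (P* P Z)`);
(N2) `Z P P* = 0` implies `Z P = 0`.

Useful existing lemmas: `Helper10.Uct.{closure_map_mem, closure_mul_mem, closure_star_mem,
closure_sandwich, exists_alg, lift_hom}`, `Helper39.Uct.{t_QT, t_RC, t_HT, rg, t_RZ, t_FE, t_CRZ}`,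
`Helper78.Uct.nl`, `Helper75.Uct2.t_ZORN2`, `Helper27.Uct2.{idl, ci}`, `Helper49.Uct2.ms`,
`Helper94.Uct2.{uq, rn, cor}`, `Helper51.Uct2.NP`; see `Helper39/Uct/Main.lean`, `Main2.lean`.
Every packet may assume the other `S_..` statements that its docstring uses as hypotheses, as in
`theorem comm (hBAS : S_BAS) : S_COMM := ...`.
-/

open scoped ComplexOrder

namespace Pool.Agent.Helper34.CP

open Pool.Agent.Helper39.Uct

section defs

variable {B : Type} [NonUnitalCStarAlgebra B]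

/-- A system of closed subspaces `E n` generating `B`, with `E m * E n ⊆ E (m + n)` and
`(E m)* * E (m + n) ⊆ E n`. -/
structure Sys (E : ℕ → Submodule ℂ B) : Prop where
  closed : ∀ n, IsClosed (E n : Set B)
  star0 : ∀ x ∈ E 0, star x ∈ E 0
  mul : ∀ m n, ∀ x ∈ E m, ∀ y ∈ E n, x * y ∈ E (m + n)
  left : ∀ m n, ∀ x ∈ E m, ∀ y ∈ E (m + n), star x * y ∈ E n
  gen : ∀ S : NonUnitalStarSubalgebra ℂ B, IsClosed (S : Set B) →
    (∀ n, ∀ x ∈ E n, x ∈ S) → ∀ b, b ∈ S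

/-- The closed span of the products `x y*` with `x ∈ E p`, `y ∈ E q`, `p - q = n`. -/
def BB (E : ℕ → Submodule ℂ B) (n : ℤ) : Submodule ℂ B :=
  (Submodule.span ℂ {z : B | ∃ p q : ℕ, (p : ℤ) - q = n ∧ ∃ x ∈ E p, ∃ y ∈ E q,
    z = x * star y}).topologicalClosure

/-- The closed span of the products `x y*` with `x, y ∈ E i`, `i ≤ m`. -/
def FF (E : ℕ → Submodule ℂ B) (m : ℕ) : Submodule ℂ B :=
  (Submodule.span ℂ {z : B | ∃ i ≤ m, ∃ x ∈ E i, ∃ y ∈ E i, z = x * star y}).topologicalClosure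

/-- The closure of `e V`. -/
def LL (e : B) (V : Submodule ℂ B) : Submodule ℂ B :=
  (V.map (LinearMap.mulLeft ℂ e)).topologicalClosure

/-- `V` is the image of a type I algebra. -/
def TI (V : Submodule ℂ B) : Prop :=
  ∃ (A : Type) (_ : NonUnitalCStarAlgebra A), IsTypeI A ∧ ∃ ι : A →⋆ₙₐ[ℂ] B,
    Set.range ι = (V : Set B)

/-- `e V e` is commutative. -/
def Ab (V : Submodule ℂ B) (e : B) : Prop :=
  ∀ x ∈ V, ∀ y ∈ V, (e * x * e) * (e * y * e) = (e * y * e) * (e * x * e)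

/-- There is no nonzero self-adjoint `f` in the core `BB E 0` with `f (BB E 0) f`
commutative. -/
def NA (E : ℕ → Submodule ℂ B) : Prop :=
  ∀ f ∈ BB E 0, star f = f → Ab (BB E 0) f → f = 0

/-- An element `b` of `FF E m` such that `b` and `b*` kill all `E l`, `l > m`, is zero. -/
def NR (E : ℕ → Submodule ℂ B) : Prop :=
  ∀ m, ∀ b ∈ FF E m, (∀ l, m < l → ∀ x ∈ E l, b * x = 0 ∧ star b * x = 0) → b = 0

/-- The basic facts. -/
structure Bas (E : ℕ → Submodule ℂ B) : Prop where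
  ffMono : ∀ m n, m ≤ n → FF E m ≤ FF E n
  ffMul : ∀ m, ∀ x ∈ FF E m, ∀ y ∈ FF E m, x * y ∈ FF E m
  ffStar : ∀ m, ∀ x ∈ FF E m, star x ∈ FF E m
  ffBB : ∀ m, FF E m ≤ BB E 0
  ffZero : FF E 0 = E 0
  ffE : ∀ m l, m ≤ l → ∀ c ∈ FF E m, ∀ y ∈ E l, c * y ∈ E l
  kk : ∀ i m, i ≤ m → ∀ x ∈ E i, ∀ y ∈ E i, x * star y ∈ FF E m
  /-- `(FF E (m+1))` is the closure of `FF E m` plus the span of `E (m+1) (E (m+1))*`. -/
  ffSucc : ∀ m, FF E (m + 1) = (FF E m ⊔ Submodule.span ℂ {z : B | ∃ x ∈ E (m + 1),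
    ∃ y ∈ E (m + 1), z = x * star y}).topologicalClosure
  sand : ∀ l j, ∀ x ∈ E j, ∀ y ∈ E l, ∀ z ∈ E l, star y * x * z ∈ E j
  sandF : ∀ m l, m ≤ l → ∀ c ∈ FF E m, ∀ y ∈ E l, ∀ z ∈ E l, star y * c * z ∈ E 0
  gr : ∃ G : Fib (Multiplicative ℤ) B, ∀ q, G.fib q = BB E (Multiplicative.toAdd q)
  apx0 : ∀ z ∈ BB E 0, ∀ ε : ℝ, 0 < ε → ∃ m, ∃ z' ∈ FF E m, ‖z - z'‖ < ε
  apx : ∀ q : ℤ, q ≠ 0 → ∀ z ∈ BB E q, ∀ ε : ℝ, 0 < ε → ∃ (m j : ℕ) (z' : B), 1 ≤ j ∧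
    ‖z - z'‖ < ε ∧ ∀ l, m ≤ l → ∀ y ∈ E l,
      star y * z' * y ∈ E j ∨ star (star y * z' * y) ∈ E j

/-- The data of the chain argument: `f 0, f 1, ...` are self-adjoint elements of `e A e` with
`f (i + 1) * f i = f i`, `e A e` is commutative, `x ∈ E j`, and `z* x z ≠ 0` for all nonzero `z`
in the closure of `e (E l)`, for all `l`. -/
structure Dat (E : ℕ → Submodule ℂ B) (e : B) (f : ℕ → B) (j : ℕ) (x : B) : Prop where
  eA : e ∈ E 0
  esa : star e = e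
  sa : ∀ i, star (f i) = f i
  fac : ∀ i, ∃ v ∈ E 0, f i = e * v * e
  step : ∀ i, f (i + 1) * f i = f i
  ne : ∀ i, f i ≠ 0
  ab : Ab (E 0) e
  xm : x ∈ E j
  pos : 1 ≤ j
  uu : ∀ l, ∀ z ∈ LL e (E l), z ≠ 0 → star z * x * z ≠ 0

/-- All separable quotients of the subalgebra `V` are in the class. -/
def QIn (𝒞 : Cls) (V : Submodule ℂ B) : Prop :=
  ∀ (F F' : Type) [NonUnitalCStarAlgebra F] [NonUnitalCStarAlgebra F']
    [TopologicalSpace.SeparableSpace F'] (κ : F →⋆ₙₐ[ℂ] B) (π : F →⋆ₙₐ[ℂ] F'),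
    Function.Injective κ → Set.range κ = (V : Set B) → Function.Surjective π → 𝒞 F'

end defs

/-- `B` has a nonzero hereditary subalgebra that is weakly graded by `ℤ` with type I unit
fibre. -/
def HerZ (B : Type) [NonUnitalCStarAlgebra B] : Prop :=
  ∃ (H : Type) (_ : NonUnitalCStarAlgebra H) (ι : H →⋆ₙₐ[ℂ] B), Hered ι ∧ Nontrivial H ∧
    WGQ (Multiplicative ℤ) H

/-- `B` has a system with type I coefficient algebra. -/
def HasSys (B : Type) [NonUnitalCStarAlgebra B] : Prop :=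
  ∃ E : ℕ → Submodule ℂ B, Sys E ∧ TI (E 0)

/-! ## Packets -/

/-- BAS: the basic facts.
PROOF.  For `x ∈ E p`, `y ∈ E q`, `z ∈ E p'`, `w ∈ E q'`: if `q ≤ p'` then `y* z ∈ E (p' - q)`
by `left` and `(x y*)(z w*) = (x (y* z)) w*` with `x (y* z) ∈ E (p + p' - q)`; if `p' ≤ q` then
`z* y ∈ E (q - p')` and `(x y*)(z w*) = x (w (z* y))*`, `w (z* y) ∈ E (q' + q - p')`.  This gives
the products of the `BB E n` (degrees add) and `ffMul` (products of generators of index `i`, `k`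
are generators of index `max i k`); then pass to closed spans with `closure_mul_mem`.  Stars:
`(x y*)* = y x*`.  DENSITY (for `gr`): for `x ∈ E n` put `h = x* x ∈ E 0`; `x` is the limit of
`x u` with `u = g(h)` self-adjoint in `E 0` (`g(t) = min(t/ε, 1)`, or `h (h + ε)⁻¹`), as
`‖x - x u‖² = ‖(1-u) h (1-u)‖ ≤ ε`; hence `x` lies in the closed span `S` of all `x' y*`
(`x' ∈ E p`, `y ∈ E q`), which by the product formula is a closed *-subalgebra: it is everything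
by `gen`; and `S` is the closure of the sum of the `BB E n`.  The same argument with `n = 0`
gives `E 0 ≤ FF E 0`; the converse is clear by `star0`, `mul`.
`ffE`: `(x y*) z = x (y* z) ∈ E l` for `x, y ∈ E i`, `z ∈ E l`, `i ≤ l`.  `sand`:
`y* (x z)`, `x z ∈ E (j + l) = E (l + j)`.  `sandF`: `y* (c z)` with `c z ∈ E l` by `ffE`.
`apx`: approximate `z` by a finite sum `z'` of products `x y*` with `x ∈ E p`, `y ∈ E p'`,
`p - p' = q`, `p, p' ≤ m`.  If `q > 0`, `j = q`: for `w ∈ E l`, `l ≥ m`: `y* w ∈ E (l - p')`,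
`x (y* w) ∈ E (l + q)`, `w* (x y* w) ∈ E q`.  If `q < 0`, `j = -q` and `w* x y* w` is the star of
`w* y x* w ∈ E j`. -/
def S_BAS : Prop := ∀ (B : Type) [NonUnitalCStarAlgebra B] (E : ℕ → Submodule ℂ B),
  Sys E → Bas E

/-- SYSQ: quotients.
PROOF.  `E' n` is the closure of `π (E n)`.  `E' 0 = π (E 0)` is the range of `π ∘ ι`, closed by
`t_RC`.  `gen`: for a closed *-subalgebra `S` of `B'` containing all `E' n`, the preimage is a
closed *-subalgebra of `B` containing all `E n`, so it is everything, and `π` is surjective. -/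
def S_SYSQ : Prop := ∀ (B B' : Type) [NonUnitalCStarAlgebra B] [NonUnitalCStarAlgebra B']
  (π : B →⋆ₙₐ[ℂ] B'), Function.Surjective π → HasSys B → HasSys B'

/-- ABEL: abelian elements.
PROOF.  Let `N = {a ∈ V | h x a = 0 and a x h* = 0 for all x ∈ V}`: a closed subspace, stable under
star (`h x a* = (a x* h*)*`) and a two-sided ideal of `V` (`h x (b a) = h (x b) a`,
`(a b) x h* = a (b x) h*`).  `h ∉ N`: otherwise `h h* h = 0`, so `h = 0`.  So `V / N` is a nonzero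
quotient of the type I algebra `A` (compose `A → V` with the quotient map of `S_QT`; pull `N`
back to the C*-algebra of `exists_alg V`), and has a nonzero abelian self-adjoint element: this
gives `a0 ∈ V`, `a0* = a0` (replace by `(a0 + a0*)/2`), `a0 ∉ N`, with
`(a0 x a0)(a0 y a0) - (a0 y a0)(a0 x a0) ∈ N` for `x, y ∈ V`.  As `a0 ∉ N` and `a0* = a0` there is
`x ∈ V` with `t := h x a0 ≠ 0`.  Put `c = x a0 a0 x*`, `e = h c h* = t t* ≠ 0`.  For `z, w ∈ V`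
`(e z e)(e w e) = t p r q t*` with `p = t* z t`, `r = t* t`, `q = t* w t`, all of the form
`a0 u a0`, `u ∈ V`.  Modulo the ideal `N` of `V` they commute pairwise, so `p r q - q r p ∈ N`,
and `t n = h (x a0) n = 0` for `n ∈ N`.  So `(e z e)(e w e) = (e w e)(e z e)`. -/
def S_ABEL : Prop := ∀ (B : Type) [NonUnitalCStarAlgebra B] (V : Submodule ℂ B),
  IsClosed (V : Set B) → (∀ x ∈ V, ∀ y ∈ V, x * y ∈ V) → (∀ x ∈ V, star x ∈ V) → TI V →
  ∀ h ∈ V, h ≠ 0 → ∃ c ∈ V, star (h * c * star h) = h * c * star h ∧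
    h * c * star h ≠ 0 ∧ Ab V (h * c * star h)

/-- TYI: the algebras `FF E m` are type I.
PROOF.  Induction on `m`; `FF E 0 = E 0`.  Let `D` be the C*-algebra of `exists_alg (FF E (m+1))`,
`ι : D → B`; we show `IsTypeI D`.  Let `π : D → D'` be surjective, `D'` nontrivial; write `π x` also for
`x ∈ FF E (m+1)`.
Case (a): `π (x y*) = 0` for all `x, y ∈ E (m+1)`.  Then by `ffSucc` and `t_RC` the restriction of
`π` to `FF E m` is onto `D'` (its range is closed and dense), so `D'` is a quotient of the type I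
algebra given by `TI (FF E m)` and has a nonzero abelian self-adjoint element.
Case (b): `π (x y*) ≠ 0` for some `x, y ∈ E (m+1)`.  `N = {a ∈ E 0 | π (x a y*) = 0 for all
x, y ∈ E (m+1)}` is a closed ideal of `E 0` stable under star (`x (a b) y* = x a (y b*)*`).
`N ≠ E 0`: otherwise `π (x a a' y*) = 0`, and `x y*` is a limit of `x u y*` with `u ∈ E 0` (as in
BAS).  Let `a0 = a0* ∈ E 0`, `a0 ∉ N`, be an element whose image in `E 0 / N` is abelian (as in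
ABEL).  There are `x, y ∈ E (m+1)` with `π (x a0 y*) ≠ 0`.  `t := x a0`, `e := π (t t*)`.  `e ≠ 0`:
otherwise `π (t t*) = 0`; `t y*` is a limit of `g(t t*) t y*` with `g(t t*)` in the closed algebra
generated by `t t*`, so `π (t y*) = 0`.  (Or: `t y* y t* ≤ ‖y‖² t t*`.)  `e` is self-adjoint, and for
`z, w ∈ FF E (m+1)`: `e π(z) e e π(w) e = π (t p r q t*)` with `p = t* z t = a0 (x* z x) a0`,
`r = t* t = a0 (x* x) a0`, `q = a0 (x* w x) a0`, where `x* z x ∈ E 0` by `sandF`.  They commute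
modulo `N`, and `π (t n t*) = 0` for `n ∈ N`.  So `e` is abelian. -/
def S_TYI : Prop := ∀ (B : Type) [NonUnitalCStarAlgebra B] (E : ℕ → Submodule ℂ B),
  Sys E → TI (E 0) → ∀ m, TI (FF E m)

/-- HCF: hereditary subalgebras with commutative core.
PROOF.  `Helper39.Uct.rg` with `Q = Multiplicative ℤ`, `M = ⊤`, `f` the inclusion `⊤ → Q` (its kernel is
trivial, so the algebra over the kernel is `G.fib 1 = BB E 0`) and `G` from `Bas.gr`.  The fibre of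
`1` of the new grading is commutative: its image lies in the closure of `e (BB E 0) e`.  Then
`Helper27.Uct2.ci`. -/
def S_HCF : Prop := ∀ (B : Type) [NonUnitalCStarAlgebra B] (E : ℕ → Submodule ℂ B),
  Sys E → ¬ HerZ B → NA E

/-- RTI: the residual part.
PROOF.  Let `b ∈ FF E m`, `b ≠ 0`, `b x = 0 = b* x` for `x ∈ E l`, `l > m`.  ABEL in `V = FF E m` with `h = b`:
`e = b c b*` self-adjoint, nonzero, `Ab (FF E m) e`.  `e x = b c (b* x) = 0` for `x ∈ E l`, `l > m`.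
Claim `Ab (BB E 0) e`: for generators `z = x y*` (`x, y ∈ E i`) of `BB E 0` (note `p - q = 0` means
`p = q`): if `i ≤ m` then `z ∈ FF E m`, if `i > m` then `e z = 0`.  So `e z e` is in the closure of
`e (FF E m) e`, which is commutative, for all `z ∈ BB E 0`.  So `e = 0` by `NA`, contradiction. -/
def S_RTI : Prop := ∀ (B : Type) [NonUnitalCStarAlgebra B] (E : ℕ → Submodule ℂ B),
  Sys E → (∀ m, TI (FF E m)) → NA E → NR E

/-- CUT: spectral cut (pure C*-algebra lemma): `q` is given by `q(t) = t / max(t, r)²`, `g` by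
`g(t) = max(t - r, 0)`, `r = (1 - ε) ‖c* c‖`.
STATEMENT: `V` closed *-subalgebra containing `a = c* c ≠ 0`, `0 < ε < 1`.  There is a self-adjoint
`g ∈ V`, `g ≠ 0`, such that for every `z` in the closure of `{g w | w ∈ B}`:
`(1 - ε) ‖a‖ ‖z‖² ≤ ‖z* a z‖`.
PROOF.  `g = g(a)`, `q = q(a)` (functional calculus `cfcₙ`; both functions vanish at `0`);
`g ≠ 0` as `‖a‖` is in the spectrum of `a` and `g(‖a‖) = ε ‖a‖ > 0`.  `q a g = g` as
`q(t) t = 1` for `t ≥ r`; so `z = q a z = (q c*) (c z)`, `‖q c*‖² = ‖q a q‖ ≤ 1/r` as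
`q(t)² t = t³ / max(t, r)⁴ ≤ 1/r`.  So `‖z‖² ≤ ‖c z‖² / r = ‖z* a z‖ / r`. -/
def S_CUT : Prop := ∀ (B : Type) [NonUnitalCStarAlgebra B] (V : Submodule ℂ B),
  IsClosed (V : Set B) → (∀ x ∈ V, ∀ y ∈ V, x * y ∈ V) → (∀ x ∈ V, star x ∈ V) →
  ∀ c : B, star c * c ∈ V → star c * c ≠ 0 → ∀ ε : ℝ, 0 < ε → ε < 1 →
  ∃ g ∈ V, star g = g ∧ g ≠ 0 ∧ ∀ z ∈ closure {z : B | ∃ w, z = g * w},
    (1 - ε) * ‖star c * c‖ * ‖z‖ ^ 2 ≤ ‖star z * (star c * c) * z‖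

/-- NRM: norms of elements of the core.
PROOF.  If `c* c = 0` take `z = 0`.  CUT with `V = FF E m` gives `g ∈ FF E m`, `g ≠ 0`, `g* = g`.  By
`NR` there are `l > m`, `w ∈ E l` with `g w ≠ 0`.  `v = g w ∈ E l` (`ffE`), `z = v / ‖v‖`. -/
def S_NRM : Prop := ∀ (B : Type) [NonUnitalCStarAlgebra B] (E : ℕ → Submodule ℂ B),
  Sys E → NR E → ∀ m, ∀ c ∈ FF E m, ∀ ε : ℝ, 0 < ε → ε < 1 →
  ∃ l, m ≤ l ∧ ∃ z ∈ E l, ‖z‖ ≤ 1 ∧
    (1 - ε) * ‖star c * c‖ ≤ ‖star z * (star c * c) * z‖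

/-- FN: local units by functional calculus.
PROOF.  Scale: `‖e‖ = 1`, `h = e e`, `1 ∈ spectrum h`.  Choose thresholds `a_i = 1/(i+2)` (decreasing),
`g_i` continuous, `g_i(t) = 1` for `t ≥ a_i`, `g_i(t) = 0` for `t ≤ a_(i+1)`, linear between.  Then
`g_(i+1) g_i = g_i`, `g_i(1) = 1`, `g_i(t) = t v_i(t)` with `v_i(t) = g_i(t)/t` continuous,
vanishing near `0`.  `f i = g_i(h) = e v_i(h) e`, `v_i(h) ∈ V`. -/
def S_FN : Prop := ∀ (B : Type) [NonUnitalCStarAlgebra B] (V : Submodule ℂ B),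
  IsClosed (V : Set B) → (∀ x ∈ V, ∀ y ∈ V, x * y ∈ V) → (∀ x ∈ V, star x ∈ V) →
  ∀ e ∈ V, star e = e → e ≠ 0 → ∃ f : ℕ → B, ∀ i, star (f i) = f i ∧ f i ≠ 0 ∧
    f (i + 1) * f i = f i ∧ ∃ v ∈ V, f i = e * v * e

/-- CHAIN.
PROOF.  Induction on `s`, for all `i`.  `s = 0`: `X = f (i+1) = f (i+2) f (i+1)`, and `f (i+1) z = z` for
`z ∈ LL (f i) _` as `f (i+1) f i = f i`.  Step: let `z ∈ LL (f i) (E ((s+1) j + r))`, `z ≠ 0`; `z = f (i+1) z`,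
`z ∈ LL e _` by `fac`, so `z* x z ≠ 0` by `uu`; `z* x z = z* x f(i+1) z = (f(i+1) x* z)* z`, so
`z' = f(i+1) x* z ≠ 0`, and `x* z ∈ E (s j + r)` by `left`, `z' ∈ LL (f (i+1)) (E (s j + r))`.  Let
`X1 = X1' f(i+1+s+1)` be given for `s`, `i + 1`.  `X = x f(i+1) X1`, `X' = x f(i+1) X1'`:
`X* z = X1* z'`. -/
def S_CHAIN : Prop := ∀ (B : Type) [NonUnitalCStarAlgebra B] (E : ℕ → Submodule ℂ B),
  Sys E → ∀ (e : B) (f : ℕ → B) (j : ℕ) (x : B), Dat E e f j x →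
  ∀ s i : ℕ, ∃ X ∈ E (s * j), (∃ X' ∈ E (s * j), X = X' * f (i + s + 1)) ∧
    ∀ r, ∀ z ∈ LL (f i) (E (s * j + r)), z ≠ 0 →
      star X * z ≠ 0 ∧ star X * z ∈ LL (f (i + s)) (E r)

/-- K1: the commutation lemma (pure C*-algebra).
PROOF.  Let `D` be the closed span of the `y₁ y₂*`: a closed *-algebra by the first hypothesis, `D Y ⊆ Y`.
If two generators do not commute, `Helper78.Uct.nl` (applied to the algebra of `exists_alg D`) gives
`k ∈ D`, `k ≠ 0`, `k k = 0`.  There is `y ∈ Y` with `k y ≠ 0` (otherwise `k D = 0`, `k k* = 0`).  Put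
`y₁ = k y`, `y₂ = k* k y ∈ Y`; `y₁* y₂ = y* (k* k*) k y = 0`.  `α = X* y₁`, `β = X* y₂`.
`w = y₁ α* β β* - y₂ β* α α* ∈ Y` (multiply successively by `yᵢ* X`, `X* yᵢ`), and
`X* w = α α* β β* - β β* α α* = 0` by the commutation hypothesis.  So `w = 0`:
`y₁ α* β β* = y₂ β* α α*`.  Multiply by `y₁*`: `y₁* y₁ α* β β* = 0`, so `y₁ α* β β* = 0` (N1), so
`α α* β β* = 0`.  Now `u = β α* = X* y₂ y₁* X` commutes with `α α*`, `β β*`, so
`β β* β α* α α* = u α α* β β* = 0`.  By (N1) twice and (N2) twice: `β* (β α* α α*) = 0`,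
`β (α* α α*) = 0`, `(β α*) α = 0`, `β α* = 0`.  So `X* (y₂ α*) = 0`, `y₂ α* = y₂ (y₁* X) ∈ Y`, so
`y₂ α* = 0`, i.e. `k* T = 0` with `T = y₁ α* = k y α*`.  `T* T = α y* k* T = 0`, so `T = 0`,
`α α* = X* T = 0`, `α = 0`: `X* y₁ = 0` with `y₁ ≠ 0` in `Y`, contradiction. -/
def S_K1 : Prop := ∀ (B : Type) [NonUnitalCStarAlgebra B] (Y : Submodule ℂ B) (X : B),
  IsClosed (Y : Set B) →
  (∀ y₁ ∈ Y, ∀ y₂ ∈ Y, ∀ y₃ ∈ Y, y₁ * star y₂ * y₃ ∈ Y) →
  (∀ y₁ ∈ Y, ∀ y₂ ∈ Y, y₁ * (star y₂ * X) ∈ Y) →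
  (∀ y₁ ∈ Y, ∀ y₂ ∈ Y, y₁ * (star X * y₂) ∈ Y) →
  (∀ y₁ ∈ Y, ∀ y₂ ∈ Y, ∀ y₃ ∈ Y, ∀ y₄ ∈ Y,
    (star X * y₁ * star y₂ * X) * (star X * y₃ * star y₄ * X) =
      (star X * y₃ * star y₄ * X) * (star X * y₁ * star y₂ * X)) →
  (∀ y ∈ Y, y ≠ 0 → star X * y ≠ 0) →
  ∀ y₁ ∈ Y, ∀ y₂ ∈ Y, ∀ y₃ ∈ Y, ∀ y₄ ∈ Y,
    (y₁ * star y₂) * (y₃ * star y₄) = (y₃ * star y₄) * (y₁ * star y₂)

/-- DK: commutation on the levels `k j`.
PROOF.  K1 with `Y = LL (f 0) (E n)`, `n = k j`, and `X = X' f(k+1)` from CHAIN (`s = k`, `i = 0`, `r = 0`).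
`Y ⊆ E n`; `y₂* y₃`, `y₂* X`, `X* y₂ ∈ E 0` by `left`, and `Y (E 0) ⊆ Y`.  With `f (k+1) = e v e`:
`X* y₁ y₂* X = e (v* e (X'* y₁ y₂* X') e v) e`, with the middle in `E 0`; so these elements
commute by `ab`. -/
def S_DK : Prop := ∀ (B : Type) [NonUnitalCStarAlgebra B] (E : ℕ → Submodule ℂ B),
  Sys E → ∀ (e : B) (f : ℕ → B) (j : ℕ) (x : B), Dat E e f j x →
  ∀ k : ℕ, ∀ y₁ ∈ LL (f 0) (E (k * j)), ∀ y₂ ∈ LL (f 0) (E (k * j)),
    ∀ y₃ ∈ LL (f 0) (E (k * j)), ∀ y₄ ∈ LL (f 0) (E (k * j)),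
    (y₁ * star y₂) * (y₃ * star y₄) = (y₃ * star y₄) * (y₁ * star y₂)

/-- COMM.
PROOF.  `f = f 0`.  By `apx0` and continuity it is enough to show `b = b₁ b₂ - b₂ b₁ = 0` for
`b₁ = f c₁ f`, `b₂ = f c₂ f`, `c₁, c₂ ∈ FF E m`.
(1) Let `k` with `k j ≥ m`, `n = k j`, `Y = LL f (E n)`.  `bᵢ Y ⊆ Y` (`f (cᵢ f y)`, `cᵢ f y ∈ E n` by
`ffE`).  By DK the products `κ = y y'*` (`y, y' ∈ Y`) commute, and `bᵢ κ` is again such a product.
`b₁ b₂ κ₁ κ₂ = b₁ κ₂ (b₂ κ₁) = (b₁ κ₂)(b₂ κ₁) = (b₂ κ₁)(b₁ κ₂) = b₂ (b₁ κ₂) κ₁ = b₂ b₁ κ₁ κ₂`.  So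
`b y₁ y₂* y₃ y₄* = 0` on `Y`, and by (N2) three times (`y₄ = y₃`, `y₃ = y₂`, `y₂ = y₁`) `b y = 0`
for `y ∈ Y`.  `b* = b₂* b₁* - b₁* b₂*` is of the same form, so `b* y = 0` for `y ∈ Y`.
For `y' ∈ E n`: `b y' ∈ Y`, so `b* (b y') = 0`, `b y' = 0`; likewise `b* y' = 0`.
(2) Suppose `b ≠ 0`.  `b ∈ FF E m`; by `NR` there are `l > m`, `w ∈ E l` with `b w ≠ 0` or `b* w ≠ 0`;
by symmetry `z = b w ≠ 0`, `z ∈ LL f (E l)`.  Write `l = s j + r`, `r < j`.  CHAIN (`i = 0`):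
`X ∈ E (s j)`, `z' = X* z ≠ 0`, `z' ∈ LL (f s) (E r) ⊆ LL e (E r)`; by `uu` `x* z' ≠ 0`.  So
`(X x)* b w ≠ 0`.  But `X x ∈ E ((s+1) j)`, `(s+1) j > l > m`, so `b* (X x) = 0` by (1).
Contradiction. -/
def S_COMM : Prop := ∀ (B : Type) [NonUnitalCStarAlgebra B] (E : ℕ → Submodule ℂ B),
  Sys E → NR E → ∀ (e : B) (f : ℕ → B) (j : ℕ) (x : B), Dat E e f j x →
  Ab (BB E 0) (f 0)

/-- KILL: kill one element.
PROOF.  CUT with `V = E 0`: `g ∈ E 0`.  ABEL with `V = E 0`, `h = g`: `e = g c' g* ∈ E 0` self-adjoint,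
nonzero, `Ab (E 0) e`.  FN with `V = E 0`, `e`: `f i`.  If `z* x z ≠ 0` for all `l` and all nonzero
`z ∈ LL e (E l)` then `Dat E e f j x`, so COMM gives `Ab (BB E 0) (f 0)`, contradicting `NA`
(`f 0 ∈ E 0 = FF E 0 ≤ BB E 0`, `f 0 ≠ 0`).  So there are `l` and `z ∈ LL e (E l)`, `z ≠ 0`, with
`z* x z = 0`; scale `‖z‖ = 1`.  `z` is in the closure of `g B`, so CUT gives the estimate. -/
def S_KILL : Prop := ∀ (B : Type) [NonUnitalCStarAlgebra B] (E : ℕ → Submodule ℂ B),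
  Sys E → TI (E 0) → NA E → NR E → ∀ (j : ℕ) (c x : B), 1 ≤ j → x ∈ E j → star c * c ∈ E 0 →
  ∀ ε : ℝ, 0 < ε → ε < 1 → ∃ l, ∃ z ∈ E l, ‖z‖ ≤ 1 ∧ star z * x * z = 0 ∧
    (1 - ε) * ‖star c * c‖ ≤ ‖star z * (star c * c) * z‖

/-- MK: kill finitely many elements.
PROOF.  Induction on the list (for all `c`, `ε`); empty list: `z` from KILL with `x = 0` (or CUT).
`z₁` kills the first element `x₁` with `ε' ` such that `(1-ε')² ≥ 1-ε`; `c' = c z₁`, `c'* c' ∈ E 0` by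
`sand`, `x' = z₁* x z₁ ∈ E j` by `sand` (if `x* ∈ E j` then `x'* ∈ E j`); the induction hypothesis
for `c'` and the `x'` gives `z₂`; `z = z₁ z₂ ∈ E (l₁ + l₂)`.  For `x* ∈ E j`: `z* x* z = 0` iff
`z* x z = 0`. -/
def S_MK : Prop := ∀ (B : Type) [NonUnitalCStarAlgebra B] (E : ℕ → Submodule ℂ B),
  Sys E → TI (E 0) → NA E → NR E → ∀ L : List B,
  (∀ x ∈ L, ∃ j, 1 ≤ j ∧ (x ∈ E j ∨ star x ∈ E j)) → ∀ c : B, star c * c ∈ E 0 →
  ∀ ε : ℝ, 0 < ε → ε < 1 → ∃ l, ∃ z ∈ E l, ‖z‖ ≤ 1 ∧ (∀ x ∈ L, star z * x * z = 0) ∧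
    (1 - ε) * ‖star c * c‖ ≤ ‖star z * (star c * c) * z‖

/-- TOP: the grading is topological.
PROOF.  (i) It is enough to prove `‖c* c‖ ≤ ‖c* c + Σ_(q ≠ 0) b_q‖` for `c ∈ BB E 0`, `b_q ∈ BB E q`: apply
it to `c = b_0` and the `b_0* b_q ∈ BB E q`: `‖b_0‖² ≤ ‖b_0* Σ b_q‖ ≤ ‖b_0‖ ‖Σ b_q‖`.
(ii) By approximation (`apx0`, `apx`) it is enough to prove it for `c ∈ FF E m` and `b_q` such that
for all `l ≥ m`, `y ∈ E l`: `y* b_q y ∈ E j ∨ (y* b_q y)* ∈ E j` for some `j = j_q ≥ 1`.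
(iii) NRM: `l ≥ m`, `z ∈ E l`, `‖z‖ ≤ 1`, `(1-ε) ‖c* c‖ ≤ ‖z* c* c z‖`; `c' = c z`, `c'* c' ∈ E 0` (`sandF`),
`x_q = z* b_q z`.  MK: `w` with `‖w‖ ≤ 1`, `w* x_q w = 0`, `(1-ε)‖c'* c'‖ ≤ ‖w* c'* c' w‖`.
So `(1-ε)² ‖c* c‖ ≤ ‖(z w)* (c* c + Σ b_q) (z w)‖ ≤ ‖c* c + Σ b_q‖`. -/
def S_TOP : Prop := ∀ (B : Type) [NonUnitalCStarAlgebra B] (E : ℕ → Submodule ℂ B),
  Sys E → TI (E 0) → NA E → NR E → ∀ G : Fib (Multiplicative ℤ) B,
  (∀ q, G.fib q = BB E (Multiplicative.toAdd q)) → G.Top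

/-- QF: quotients of the core are in the class.
PROOF.  Let `κ : F → B` be injective with range `BB E 0`, `π : F → F'` surjective.  `V_m = π (κ⁻¹ (FF E m))` is the
range of a *-homomorphism of the C*-algebra of `exists_alg (FF E m)`, which is itself the image
of a type I algebra, so `V_m` is closed (`t_RC`), increasing, and the C*-algebra `D_m` of
`exists_alg V_m` is type I (quotient of a type I algebra) and separable.  The union of the `V_m` is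
dense (`apx0`).  `UnionIn`. -/
def S_QF : Prop := ∀ (𝒞 : Cls), TypeIIn 𝒞 → UnionIn 𝒞 → ∀ (B : Type) [NonUnitalCStarAlgebra B]
  (E : ℕ → Submodule ℂ B), Sys E → (∀ m, TI (FF E m)) → QIn 𝒞 (BB E 0)

/-- MATZ: the matrix algebra of degree zero is in the class.
PROOF.  `Helper75.Uct2.t_ZORN2` with `PP A'` := there is a surjection `A → A'`.  Let `π : A → A'` be surjective,
`A'` nontrivial.  Some `π (e_ij b) ≠ 0`, `b ∈ G.fib (i - j)`; `(e_ij b)* (e_ij b) = e_jj (b* b)`, so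
the *-homomorphism `ρ : F → A'`, `b ↦ π (e_jj b)` (`F` the C*-algebra of `exists_alg (G.fib 1)`) is
nonzero.  Its range `R` is closed and hereditary: `e_jj(b) a e_jj(b') ∈ e_jj(G.fib 1)` for generators
`a` of `ASpan`, hence for all `a ∈ A`.  The algebra `H` of `exists_alg R` is a quotient of `F`,
so `𝒞 H` by `QIn`; `Helper27.Uct2.idl` gives the ideal.  Subsingleton algebras are type I. -/
def S_MATZ : Prop := ∀ (𝒞 : Cls), RSClass 𝒞 → ∀ (B M : Type) [NonUnitalCStarAlgebra B]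
  [NonUnitalCStarAlgebra M] (G : Fib (Multiplicative ℤ) B) (e : ℤ → ℤ → B →ₗ[ℂ] M), MatSys e →
  QIn 𝒞 (G.fib 1) → ∀ (A : Type) [NonUnitalCStarAlgebra A] [TopologicalSpace.SeparableSpace A]
  (κ : A →⋆ₙₐ[ℂ] M), Function.Injective κ →
  Set.range κ = ((ASpan G (MonoidHom.id _) e).topologicalClosure : Set M) → 𝒞 A

/-- TOPZ: topologically `ℤ`-graded algebras.
PROOF.  `PZ (Multiplicative ℤ)` by `Helper51.Uct2.NP`.  `Gauge G id` by `t_FE`.  `Helper49.Uct2.ms` gives `M`, `e`.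
The closure of `ASpan G id e` is a closed *-algebra; `exists_alg` gives `A`, `κ`; `MATZ` gives `𝒞 A`;
`t_CRZ` and `crossZ` give `𝒞 M`; `Helper94.Uct2.cor` and `hered` give `𝒞 B` (see
`Helper11/Uct2/TT.lean`). -/
def S_TOPZ : Prop := ∀ (𝒞 : Cls), RSClass 𝒞 → ∀ (B : Type) [NonUnitalCStarAlgebra B]
  [TopologicalSpace.SeparableSpace B] (G : Fib (Multiplicative ℤ) B), G.Top →
  QIn 𝒞 (G.fib 1) → 𝒞 B

/-- CP: the theorem.
PROOF.  ZORN2 with `PP = HasSys`.  Let `HasSys B`, `B` nontrivial and separable.  If `HerZ B`: `𝒞 H` by `t_RZ`, and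
`idl` gives an ideal.  Otherwise `NA E` (HCF), `NR E` (TYI, RTI), `G.Top` (TOP), `QIn 𝒞 (BB E 0)`
(QF), `𝒞 B` (TOPZ); take the ideal `B`. -/
def S_CP : Prop := ∀ (𝒞 : Cls), RSClass 𝒞 → ∀ (B : Type) [NonUnitalCStarAlgebra B]
  [TopologicalSpace.SeparableSpace B] (E : ℕ → Submodule ℂ B), Sys E → TI (E 0) → 𝒞 B

/-- AV: algebras generated by a type I algebra and a set `V` with `V* A V ⊆ A`, `V* V ⊆ A`.
PROOF.  `W` = closed span of `V, A V, V A, A V A`: `W* W ⊆ A`, `A W, W A ⊆ W`.  `E 0 = A`, `E 1 = W`,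
`E (n+1)` = closed span of `W (E n)` for `n ≥ 1`.  (`E (n+1)` is the closed span of products of
`n + 1` elements of `W`.)  `E m E n ⊆ E (m+n)`: clear.  `(E m)* E (m+n) ⊆ E n`: induction on `m`, from
`W* W (E k) ⊆ A (E k) ⊆ E k` and `W* W ⊆ A = E 0`. -/
def S_AV : Prop := ∀ (𝒞 : Cls), RSClass 𝒞 → ∀ (A B : Type) [NonUnitalCStarAlgebra A]
  [NonUnitalCStarAlgebra B] [TopologicalSpace.SeparableSpace B] (ι : A →⋆ₙₐ[ℂ] B) (V : Set B),
  IsTypeI A → (∀ v ∈ V, ∀ w ∈ V, star v * w ∈ Set.range ι) →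
  (∀ v ∈ V, ∀ a, ∀ w ∈ V, star v * ι a * w ∈ Set.range ι) →
  (∀ S : NonUnitalStarSubalgebra ℂ B, IsClosed (S : Set B) → Set.range ι ⊆ (S : Set B) →
    V ⊆ (S : Set B) → ∀ b, b ∈ S) → 𝒞 B

end Pool.Agent.Helper34.CP
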